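import Pool.Agent.H42.CS.Fin

set_option autoImplicit false

/-!
# The cost of symmetry: symmetric proofs with counting for all permutation groups
-/

namespace Pool.Agent.Results.MP_576eff_lc.CostOfSymmetry

open Pool.Agent.H42.CS

/-- For every `δ > 0` there is a finite set of first-order axioms such that for every group `Γ` of
permutations of `n` points: (1) there is a refutation of the axioms over the `n` points, in the
sequent calculus with conjunctions and all symmetric gates, which is symmetric under `Γ`, of size at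
most `|Γ| n ^ C` and bounded depth; (2) if `2 ^ h` divides `|Γ|`, every refutation which is symmetric
under `Γ` has size at least `2 ^ ((h / log n) ^ (1 - δ) / C)`. -/
theorem result (δ : ℝ) (h0 : 0 < δ) (h1 : δ < 1) :
    ∃ (Rel : ℕ → Type) (T : Set (Ax Rel)) (C : ℕ), 0 < C ∧ T.Finite ∧
      (∀ A ∈ T, A.lits.Finite ∧ A.ex.Finite) ∧
      ∀ n : ℕ, 2 ≤ n → ∀ Γ : Subgroup (Equiv.Perm (Fin n)),
        (∃ R : Refutation T (Fin n), R.Symm Γ ∧ R.size ≤ Nat.card Γ * n ^ C ∧
          ∀ a, R.C.rank a ≤ C) ∧
        ∀ h : ℕ, 2 ^ h ∣ Nat.card Γ → ∀ R : Refutation T (Fin n), R.Symm Γ →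
          (2 : ℝ) ^ (((h : ℝ) / Real.logb 2 n) ^ (1 - δ) / C) ≤ R.size :=
  final δ h0 h1

end Pool.Agent.Results.MP_576eff_lc.CostOfSymmetry
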